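import Pool.Agent.H50.A.GbI

set_option autoImplicit false

/-! # MP_5d7b92_nt: how often are all prime-indexed prime summands of an even number late?

Write `log_k` for the iterated logarithms, `f(X) = log X (log₂ X)² log₄ X / (log₃ X)²` and `C₂ = 0.6601…` for the
twin prime constant.  Call a prime `q` of order `k` if `q, π(q), …, π^k(q)` are all prime; the order `k = 1` is the
question, and `π^(k+1)(q)` is the rank of `q` among the primes of order `k`.

Let `k ≥ 1`, `A, ε > 0` and `B ≥ 0`.  For all large `X` every interval `(x, x + X]` with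
`0 ≤ x ≤ exp ((log X)^A)` contains at least `X exp (-ε log X / (log₂ X)^B)` even integers `N` such that for every
prime `q` of order `k` with `π^(k+1)(q) ≤ (1 / ((12 + 4 k + 4 B) C₂) - ε) f(X)` one has `q < N` and `N - q` is
composite, with a prime factor `p ≤ exp (log X / log₂ X)`. -/

namespace Pool.Agent.Results.MP_5d7b92_nt.LateSummandsOften

open Filter

/-- the function `log X (log₂ X)² log₄ X / (log₃ X)²` -/
noncomputable def f (X : ℝ) : ℝ :=
  Real.log X * (Real.log (Real.log X)) ^ 2 * Real.log (Real.log (Real.log (Real.log X))) /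
    (Real.log (Real.log (Real.log X))) ^ 2

/-- the twin prime constant `∏_{p ≥ 3} (1 - 1 / (p - 1)²)`, as the infimum of its partial products -/
noncomputable def C₂ : ℝ :=
  ⨅ v : ℕ, ∏ p ∈ (Finset.Icc 3 v).filter Nat.Prime, (1 - 1 / ((p : ℝ) - 1) ^ 2)

/-- `q, π(q), …, π^k(q)` are all prime; for `k = 1`: `q` is a prime-indexed prime -/
def Order (k q : ℕ) : Prop := ∀ i : ℕ, i ≤ k → (Nat.primeCounting^[i] q).Prime

theorem result (k : ℕ) (_hk : 1 ≤ k) (A B ε : ℝ) (hA : 0 < A) (hB : 0 ≤ B) (hε : 0 < ε) :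
    ∃ X₀ : ℝ, ∀ X : ℝ, X₀ ≤ X → ∀ x : ℝ, 0 ≤ x → x ≤ Real.exp ((Real.log X) ^ A) →
      X * Real.exp (-(ε * Real.log X / (Real.log (Real.log X)) ^ B)) ≤
        ({N : ℕ | x < N ∧ (N : ℝ) ≤ x + X ∧ Even N ∧ ∀ q : ℕ, Order k q →
          (Nat.primeCounting^[k + 1] q : ℝ) ≤ (1 / ((12 + 4 * k + 4 * B) * C₂) - ε) * f X →
          q < N ∧ ∃ p : ℕ, p.Prime ∧ (p : ℝ) ≤ Real.exp (Real.log X / Real.log (Real.log X)) ∧
            p ∣ N - q ∧ p < N - q}.ncard : ℝ) := by
  obtain ⟨X₀, h⟩ := eventually_atTop.1 (Pool.Agent.H50.A.gold_iter k A B ε hA hB hε)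
  exact ⟨X₀, h⟩

end Pool.Agent.Results.MP_5d7b92_nt.LateSummandsOften
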