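import Pool.Agent.H95.PI.Final

/-!
# The least Goldbach summand with index in an adapted set, in all sieved sequential random models

The integers are decided one after the other; the multiples of the primes of a finite set `Q` are
never chosen and the conditional probability of choosing an integer `n + 1` which is not such a
multiple, given the decisions up to `n`, is asymptotic to `∏_{p ∈ Q} (1 - 1 / p)⁻¹ / log n`, almost
surely. No independence and no rate of convergence are assumed. We determine how late the first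
representation `N = s + v` with `s`, `v` chosen and the index of `s` in a prescribed adapted set `T`
appears, and how often it is late: the constant is `1 / σ(N)` (for the number of the indices in `T` up
to that of `s`, divided by `(log N)²`), and for `κ < 1 / σ` the integers `N` for which the constant is
larger than `κ` number `X^(1 - κ σ + o(1))` up to `X` and occur in all intervals
`(Y, Y + Y^(κ σ + ε)]`. For prime-indexed summands (the index of `s` is chosen) this says that the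
least summand is at most `(4 / σ(N) + ε) (log N)² (log log N)²`, and this is sharp.

The notion of a sequential model, the law of the number of the representations with an unspecified
constant and the theorem on Hawkins' sieve are from the library (runs of helper528, helper740,
helper893, helper9; vendored in `Pool/Agent/H95/P`).
-/

set_option autoImplicit false

open MeasureTheory Filter Set
open scoped Topology

namespace Pool.Agent.Results.MP_5d7b92_nt.LeastIndexedSummand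

variable {Ω : Type}

/-- `A n` is the event that `n` is chosen; adapted to `ℱ`; multiples of the primes in `Q` are not
chosen; the conditional probability of `A (n + 1)` given `ℱ n`, times `log n`, tends almost surely to
`∏_{p ∈ Q} (1 - 1 / p)⁻¹` along the `n` such that no `p ∈ Q` divides `n + 1` -/
def SievedModel [m : MeasurableSpace Ω] (μ : Measure Ω) (ℱ : Filtration ℕ m) (A : ℕ → Set Ω)
    (Q : Finset ℕ) : Prop :=
  (∀ n, MeasurableSet[ℱ n] (A n)) ∧ (∀ n, (∃ p ∈ Q, p ∣ n) → A n = ∅) ∧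
  ∀ᵐ ω ∂μ, Tendsto (fun n : ℕ => (μ[(A (n + 1)).indicator (fun _ => (1 : ℝ)) | ℱ n]) ω * Real.log n)
    (atTop ⊓ 𝓟 {n : ℕ | ∀ p ∈ Q, ¬ p ∣ n + 1}) (𝓝 (∏ p ∈ Q, (1 - 1 / (p : ℝ))⁻¹))

open Classical in
/-- The random sieve of Hawkins: `2` is chosen, and given the decisions up to `n ≥ 2` the number
`n + 1` is chosen with probability `∏ (1 - 1 / h)`, the product over the chosen `2 ≤ h ≤ n`. -/
def HawkinsSieve [m : MeasurableSpace Ω] (μ : Measure Ω) (ℱ : Filtration ℕ m) (A : ℕ → Set Ω) : Prop :=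
  (∀ n, MeasurableSet[ℱ n] (A n)) ∧ A 2 = univ ∧
  ∀ n, 2 ≤ n → μ[(A (n + 1)).indicator (fun _ => (1 : ℝ)) | ℱ n] =ᵐ[μ]
    fun ω => ∏ h ∈ Finset.Icc 2 n, if ω ∈ A h then 1 - 1 / (h : ℝ) else 1

/-- `π(n)` in the model: the number of the chosen integers in `[1, n]`; the index of a chosen `n` -/
noncomputable def pi (A : ℕ → Set Ω) (ω : Ω) (n : ℕ) : ℕ := {i : ℕ | 1 ≤ i ∧ i ≤ n ∧ ω ∈ A i}.ncard

/-- the number of the indices `1 ≤ k ≤ π(x)` in `T` -/
noncomputable def rank (A T : ℕ → Set Ω) (ω : Ω) (x : ℕ) : ℕ :=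
  {k : ℕ | 1 ≤ k ∧ k ≤ pi A ω x ∧ ω ∈ T k}.ncard

/-- the local factor of the binary Goldbach problem at the primes of `Q` -/
noncomputable def sing (Q : Finset ℕ) (N : ℕ) : ℝ :=
  ∏ p ∈ Q, (1 - (if p ∣ N then 1 else 2 : ℝ) / p) / (1 - 1 / (p : ℝ)) ^ 2

/-- `s` and `N - s` are chosen and the index of `s` is in `T` -/
def Rep (A T : ℕ → Set Ω) (ω : Ω) (N s : ℕ) : Prop :=
  1 ≤ s ∧ s < N ∧ ω ∈ A s ∧ ω ∈ T (pi A ω s) ∧ ω ∈ A (N - s)

/-- order `0`: `s` is chosen; order `j + 1`: `s` is chosen and its index has order `j` -/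
def Order (A : ℕ → Set Ω) (ω : Ω) : ℕ → ℕ → Prop
  | 0, s => ω ∈ A s
  | j + 1, s => ω ∈ A s ∧ Order A ω j (pi A ω s)

/-- `N` is not a sum of an `s ≤ κ (log N)² (log log N)^(j + 1)` of order `j` and a chosen integer -/
def Late (A : ℕ → Set Ω) (ω : Ω) (j : ℕ) (κ : ℝ) (N : ℕ) : Prop :=
  ∀ s : ℕ, 1 ≤ s → s < N → (s : ℝ) ≤ κ * (Real.log N ^ 2 * Real.log (Real.log N) ^ (j + 1)) →
    Order A ω j s → ω ∉ A (N - s)

open Pool.Agent.R528.RM Pool.Agent.N9.AD Pool.Agent.H95.PI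

lemma pi_eq (A : ℕ → Set Ω) (ω : Ω) (n : ℕ) : pi A ω n = Pool.Agent.N9.AD.cnt A ω n := cnt_ncard ω n

lemma rank_eq (A T : ℕ → Set Ω) (ω : Ω) (x : ℕ) : (rank A T ω x : ℝ) = rk (Us A T) ω x := by
  unfold rank rk
  rw [Us_sum, ← pi_eq]
  exact ncard_sum (fun k => ω ∈ T k) (fun k => In T k ω) _
    (fun s h => indicator_of_mem h _) (fun s h => indicator_of_notMem h _)

lemma mem_Us (A T : ℕ → Set Ω) (ω : Ω) (s : ℕ) : ω ∈ Us A T s ↔ ω ∈ A s ∧ ω ∈ T (pi A ω s) := by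
  rw [pi_eq]
  rfl

lemma order_iff (A : ℕ → Set Ω) (ω : Ω) (j s : ℕ) : Order A ω j s ↔ ω ∈ Ch A j s := by
  induction j generalizing s with
  | zero => exact Iff.rfl
  | succ j ih =>
    show (ω ∈ A s ∧ Order A ω j (pi A ω s)) ↔ _
    rw [ih, pi_eq]
    exact Iff.rfl

end Pool.Agent.Results.MP_5d7b92_nt.LeastIndexedSummand

open Pool.Agent.Results.MP_5d7b92_nt.LeastIndexedSummand Pool.Agent.R528.RM Pool.Agent.N9.AD
  Pool.Agent.H95.PI

/-- Hawkins' sieve is a sieved model with `Q = ∅`. In every sieved model: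

(I) Let `T` be an adapted set of indices. Almost surely, for all `r` with `σ = sing Q r > 0` and all
`κ ≥ 0`: (1) if `κ σ > 1` then for all large `N` with `sing Q N = σ` and all `x < N / 2` with
`rank x ≥ κ (log N)²` there is a representation with `s ≤ x`; (2) if `κ σ ≤ 1`, the number of the
`N ≤ X` with `sing Q N = σ` for which this fails is at most `X^(1 - κ σ + ε)` for every `ε > 0` and all
large `X`; (3) if `κ σ < 1` then for every `ε > 0` and all large `Y` there is `N ≡ r` modulo the product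
of `Q` in `(Y, Y + Y^(κ σ + ε)]` without representation with `s ≤ N / 3`, `rank s ≤ κ (log N)²`.

(II) Almost surely, for all `j`, all `r` with `σ = sing Q r > 0` and all `κ > 0`, with
`c = κ σ / 2^(j + 1)`: (1) if `c > 1`, all large `N` with `sing Q N = σ` are sums of an
`s ≤ κ (log N)² (log log N)^(j + 1)` of order `j`, and a chosen integer; (2) if `c ≤ 1`, the number of
the exceptional `N ≤ X` with `sing Q N = σ` is at most `X^(1 - c + ε)` for every `ε > 0` and all large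
`X`; (3) if `c < 1`, for every `ε > 0` and all large `Y` there is an exceptional `N ≡ r` in
`(Y, Y + Y^(c + ε)]`. -/
theorem Pool.Agent.Results.MP_5d7b92_nt.LeastIndexedSummand.result
    {Ω : Type} [m : MeasurableSpace Ω] (μ : Measure Ω) [IsProbabilityMeasure μ]
    (ℱ : Filtration ℕ m) (A : ℕ → Set Ω) :
    (HawkinsSieve μ ℱ A → SievedModel μ ℱ A ∅) ∧
    (∀ Q : Finset ℕ, (∀ p ∈ Q, p.Prime) → SievedModel μ ℱ A Q →
      (∀ T : ℕ → Set Ω, (∀ k, MeasurableSet[ℱ k] (T k)) → ∀ᵐ ω ∂μ, ∀ r : ℕ, 0 < sing Q r →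
        ∀ κ : ℝ, 0 ≤ κ →
        (1 < κ * sing Q r → ∀ᶠ N : ℕ in atTop, sing Q N = sing Q r → ∀ x : ℕ, 2 * x < N →
          κ * Real.log N ^ 2 ≤ rank A T ω x → ∃ s, s ≤ x ∧ Rep A T ω N s) ∧
        (κ * sing Q r ≤ 1 → ∀ ε : ℝ, 0 < ε → ∀ᶠ X : ℕ in atTop,
          ({N : ℕ | N ≤ X ∧ sing Q N = sing Q r ∧ ∃ x : ℕ, 2 * x < N ∧
            κ * Real.log N ^ 2 ≤ rank A T ω x ∧ ∀ s, s ≤ x → ¬ Rep A T ω N s}.ncard : ℝ) ≤
            (X : ℝ) ^ (1 - κ * sing Q r + ε)) ∧
        (κ * sing Q r < 1 → ∀ ε : ℝ, 0 < ε → ∀ᶠ Y : ℕ in atTop, ∃ N : ℕ, Y < N ∧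
          (N : ℝ) ≤ Y + (Y : ℝ) ^ (κ * sing Q r + ε) ∧ N % (∏ p ∈ Q, p) = r % (∏ p ∈ Q, p) ∧
          ∀ s, 3 * s ≤ N → (rank A T ω s : ℝ) ≤ κ * Real.log N ^ 2 → ¬ Rep A T ω N s)) ∧
      (∀ᵐ ω ∂μ, ∀ j r : ℕ, 0 < sing Q r → ∀ κ : ℝ, 0 < κ →
        (1 < κ * sing Q r / 2 ^ (j + 1) → ∀ᶠ N : ℕ in atTop, sing Q N = sing Q r → ¬ Late A ω j κ N) ∧
        (κ * sing Q r / 2 ^ (j + 1) ≤ 1 → ∀ ε : ℝ, 0 < ε → ∀ᶠ X : ℕ in atTop,
          ({N : ℕ | N ≤ X ∧ sing Q N = sing Q r ∧ Late A ω j κ N}.ncard : ℝ) ≤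
            (X : ℝ) ^ (1 - κ * sing Q r / 2 ^ (j + 1) + ε)) ∧
        (κ * sing Q r / 2 ^ (j + 1) < 1 → ∀ ε : ℝ, 0 < ε → ∀ᶠ Y : ℕ in atTop, ∃ N : ℕ, Y < N ∧
          (N : ℝ) ≤ Y + (Y : ℝ) ^ (κ * sing Q r / 2 ^ (j + 1) + ε) ∧
          N % (∏ p ∈ Q, p) = r % (∏ p ∈ Q, p) ∧ Late A ω j κ N))) := by
  classical
  refine ⟨hawkins μ ℱ A, ?_⟩
  rintro Q hQ ⟨hA, hcop, hd⟩
  have hsing : ∀ N, sing Q N = singQ Q N := fun _ => rfl
  simp only [hsing]
  constructor
  · intro T hT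
    filter_upwards [adapted_upper (μ := μ) hA hT hQ hcop hd, adapted_lower (μ := μ) hA hT hQ hcop hd]
      with ω h1 h2 r hr κ hκ
    obtain ⟨h3, h4⟩ := h1 r hr κ hκ
    refine ⟨fun h5 => ?_, fun h5 ε hε => ?_, fun h5 ε hε => ?_⟩
    · filter_upwards [h3 h5] with N hN hs x hx hk
      by_contra hcon
      push Not at hcon
      refine hN hs ⟨x, hx, ?_, fun t t1 t2 t3 t4 => ?_⟩
      · rw [← rank_eq]
        exact hk
      · obtain ⟨t5, t6⟩ := (mem_Us A T ω t).1 t3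
        exact hcon t t2 ⟨t1, by omega, t5, t6, t4⟩
    · filter_upwards [h4 h5 ε hε] with X hX
      refine le_trans ?_ hX
      have hsub : {N : ℕ | N ≤ X ∧ singQ Q N = singQ Q r ∧ ∃ x : ℕ, 2 * x < N ∧
            κ * Real.log N ^ 2 ≤ rank A T ω x ∧ ∀ s, s ≤ x → ¬ Rep A T ω N s} ⊆
          {N : ℕ | N ≤ X ∧ singQ Q N = singQ Q r ∧ ExcR A (Us A T) κ ω N} := by
        rintro N ⟨n1, n2, x, n3, n4, n5⟩
        refine ⟨n1, n2, x, n3, ?_, fun t t1 t2 t3 t4 => ?_⟩
        · rw [← rank_eq]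
          exact n4
        · obtain ⟨t5, t6⟩ := (mem_Us A T ω t).1 t3
          exact n5 t t2 ⟨t1, by omega, t5, t6, t4⟩
      exact_mod_cast Set.ncard_le_ncard hsub ((Set.finite_Iic X).subset fun N hN => hN.1)
    · filter_upwards [h2 r hr κ hκ h5 ε hε] with Y ⟨N, n1, n2, n3, n4⟩
      refine ⟨N, n1, n2, n3, fun s s1 s2 s3 => ?_⟩
      obtain ⟨t1, _, t2, t3, t4⟩ := s3
      refine n4 s t1 s1 ((mem_Us A T ω s).2 ⟨t2, t3⟩) ?_ t4
      rw [← rank_eq]
      exact s2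
  · filter_upwards [order_upper (μ := μ) hA hQ hcop hd, order_lower (μ := μ) hA hQ hcop hd]
      with ω h1 h2 j r hr κ hκ
    obtain ⟨h3, h4⟩ := h1 j r hr κ hκ
    refine ⟨fun h5 => ?_, fun h5 ε hε => ?_, fun h5 ε hε => ?_⟩
    · filter_upwards [h3 h5] with N hN hs hL
      exact hN hs fun t t1 t2 t3 t4 => hL t t1 (by omega) t2 ((order_iff A ω j t).2 t4)
    · filter_upwards [h4 h5 ε hε] with X hX
      refine le_trans ?_ hX
      have hsub : {N : ℕ | N ≤ X ∧ singQ Q N = singQ Q r ∧ Late A ω j κ N} ⊆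
          {N : ℕ | N ≤ X ∧ singQ Q N = singQ Q r ∧ ExcS A (Ch A j) κ (j + 1) ω N} := by
        rintro N ⟨n1, n2, n3⟩
        exact ⟨n1, n2, fun t t1 t2 t3 t4 => n3 t t1 (by omega) t2 ((order_iff A ω j t).2 t4)⟩
      exact_mod_cast Set.ncard_le_ncard hsub ((Set.finite_Iic X).subset fun N hN => hN.1)
    · filter_upwards [h2 j r hr κ hκ h5 ε hε] with Y ⟨N, n1, n2, n3, n4⟩
      exact ⟨N, n1, n2, n3, fun s s1 s2 s3 s4 => (n4 s s1 s3).2 ((order_iff A ω j s).1 s4)⟩
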