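import Pool.Agent.H49.D.HF

set_option autoImplicit false

/-!
# Goldbach representations with prime indices, for almost all multipliers

The question asks for representations `N = p + (N - p)` with `p`, `N - p` and `π(p)` prime. Here the condition
that `π(p)` is prime is replaced by the condition that `⌊β π(p)⌋` is prime (`β = 1` is the question), and more generally by the condition
that the numbers `q_1 = ⌊β_1 π(p)⌋ + h_1`, `q_2 = ⌊β_2 π(q_1)⌋ + h_2`, …, `q_k = ⌊β_k π(q_(k-1))⌋ + h_k` are all prime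
(`β_i = 1`, `h_i = 0`: the primes of order `k`, for which `p, π(p), π(π(p)), …` are prime).
-/

namespace Pool.Agent.Results.MP_5d7b92_nt.MetricIndices

open Finset MeasureTheory Filter

/-- The chain `[q_1, …, q_k]` of the index `m`: `q_1 = ⌊β_1 m⌋ + h_1`, `q_(i+1) = ⌊β_(i+1) π(q_i)⌋ + h_(i+1)`
(read as `0` if negative). -/
noncomputable def chain : (k : ℕ) → (Fin k → ℝ) → (Fin k → ℤ) → ℕ → List ℕ
  | 0, _, _, _ => []
  | k + 1, β, h, m => (⌊β 0 * m⌋ + h 0).toNat ::
      chain k (fun i => β i.succ) (fun i => h i.succ) (Nat.primeCounting (⌊β 0 * m⌋ + h 0).toNat)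

/-- The members of `M` whose chain consists of primes. -/
noncomputable def members (k : ℕ) (β : Fin k → ℝ) (h : Fin k → ℤ) (M : Finset ℕ) : Finset ℕ :=
  M.filter fun m => ∀ q ∈ chain k β h m, q.Prime

/-- The proportion of these members of `M ⊆ [1, N]` is `(log N) ^ (-k)`, up to `ε` and up to `N / (log N) ^ A`. -/
def Expected (k : ℕ) (β : Fin k → ℝ) (h : Fin k → ℤ) (A : ℕ) (ε : ℝ) (N : ℕ) (M : Finset ℕ) : Prop :=
  |((members k β h M).card : ℝ) * Real.log N ^ k - M.card| ≤ ε * M.card + N / Real.log N ^ A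

/-- The primes `p ≤ N` with `N - p` prime. -/
def reps (N : ℕ) : Finset ℕ := (Icc 1 N).filter fun p => p.Prime ∧ (N - p).Prime

/-- The primes `p ≤ N` with `N - p` prime for which the chain of the index `π(p)` consists of primes. -/
noncomputable def chainReps (k : ℕ) (β : Fin k → ℝ) (h : Fin k → ℤ) (N : ℕ) : Finset ℕ :=
  (reps N).filter fun p => ∀ q ∈ chain k β h (Nat.primeCounting p), q.Prime

theorem chain_eq (k : ℕ) : ∀ (β : Fin k → ℝ) (h : Fin k → ℤ) (m : ℕ), chain k β h m = H49.IX.idx k β h m := by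
  induction k with
  | zero =>
    intro β h m
    rfl
  | succ k ih =>
    intro β h m
    rw [chain, H49.IX.idx, ih]

theorem members_eq (k : ℕ) (β : Fin k → ℝ) (h : Fin k → ℤ) (M : Finset ℕ) : members k β h M = H49.IX.PI k β h M := by
  unfold members H49.IX.PI
  simp only [chain_eq]

theorem expected_iff (k : ℕ) (β : Fin k → ℝ) (h : Fin k → ℤ) (A : ℕ) (ε : ℝ) (N : ℕ) (M : Finset ℕ) :
    Expected k β h A ε N M ↔ H49.IX.Gd k β h A ε N M := by
  unfold Expected H49.IX.Gd
  rw [members_eq]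

theorem chainReps_eq (k : ℕ) (β : Fin k → ℝ) (h : Fin k → ℤ) (N : ℕ) : chainReps k β h N = H49.IX.GP k β h N := by
  unfold chainReps H49.IX.GP
  simp only [chain_eq]
  rfl

open Classical in
/-- **Prime indices for almost all multipliers.** Let `k ≥ 0`.

(1) Let `M_N ⊆ [1, N]`, `N ≥ 1`, be arbitrary sets of indices. For almost every `β` with positive coordinates, all shifts
`h`, all `A` and `ε > 0` and all large `X`, all `N ≤ X` with at most `X / (log X) ^ A` exceptions satisfy
`Expected k β h A ε N M_N`.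

(2) Let `N_j` be a sequence with `j + 1 ≤ (log N_j) ^ D` for large `j` (for example `N_j = 2 ^ j`) and let `M_j ⊆ [1, N_j]`
be arbitrary sets of indices. For almost every `β` with positive coordinates, all `h`, `A` and `ε > 0`, ALL large `j`
satisfy `Expected k β h A ε N_j M_j`.

(3) For almost every `β` with positive coordinates, all `h`, `A` and `ε > 0` and all large `X`, all even `N ≤ X` with at
most `X / (log X) ^ A` exceptions have the following property: the number `G` of the primes `p ≤ N` with `N - p` prime is at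
least `N / (2 (log N) ^ 2)`, and the number `G'` of those of them for which the chain of `π(p)` consists of primes satisfies
`|G' (log N) ^ k - G| ≤ ε G`. -/
theorem result (k : ℕ) :
    (∀ M : ℕ → Finset ℕ, (∀ N, M N ⊆ Icc 1 N) →
      ∀ᵐ β : Fin k → ℝ, (∀ i, 0 < β i) → ∀ (h : Fin k → ℤ) (A : ℕ) (ε : ℝ), 0 < ε →
        ∀ᶠ X : ℕ in atTop,
          (((Icc 1 X).filter fun N => ¬ Expected k β h A ε N (M N)).card : ℝ) ≤ X / Real.log X ^ A) ∧
    (∀ (D : ℕ) (n : ℕ → ℕ), (∀ᶠ j : ℕ in atTop, (j : ℝ) + 1 ≤ Real.log (n j) ^ D) →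
      ∀ M : ℕ → Finset ℕ, (∀ j, M j ⊆ Icc 1 (n j)) →
      ∀ᵐ β : Fin k → ℝ, (∀ i, 0 < β i) → ∀ (h : Fin k → ℤ) (A : ℕ) (ε : ℝ), 0 < ε →
        ∀ᶠ j : ℕ in atTop, Expected k β h A ε (n j) (M j)) ∧
    ∀ᵐ β : Fin k → ℝ, (∀ i, 0 < β i) → ∀ (h : Fin k → ℤ) (A : ℕ) (ε : ℝ), 0 < ε →
      ∀ᶠ X : ℕ in atTop,
        (((Icc 1 X).filter fun N : ℕ => Even N ∧
          ¬ ((N : ℝ) / (2 * Real.log N ^ 2) ≤ (reps N).card ∧
            |((chainReps k β h N).card : ℝ) * Real.log N ^ k - (reps N).card| ≤ ε * (reps N).card)).card : ℝ) ≤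
          X / Real.log X ^ A := by
  refine ⟨fun M hM => ?_, fun D n hn M hM => ?_, ?_⟩
  · simp only [expected_iff]
    exact H49.IX.fam_ae k M hM
  · simp only [expected_iff]
    exact H49.IX.sparse_ae k D n hn M hM
  · simp only [chainReps_eq]
    exact H49.IX.goldbach_ae k

end Pool.Agent.Results.MP_5d7b92_nt.MetricIndices
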