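import Pool.Agent.H43.MA.OutA
import Pool.Agent.H43.MA.Main

/-!
# Prime-indexed summands in short intervals

Let `θ > 1/3`, let `M` be the product of the primes `≤ y`, where `K₀ log log x ≤ y ≤ K₁ log log x`, and let
`x ^ θ ≤ Y ≤ x`. For almost all multiples `N` of `M` between `x` and `2 x` there are at least as many primes `p ≤ Y` with
`π(p)` prime and `N - p` prime as expected, up to the factor `1 - ε`; the same holds for the elements `p` of ANY dense set of
primes in ANY interval `(a, a + Y]`, and for several `N` at the same time with a common summand `p`.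

The proof: `Pool/Agent/H43/MA` (bilinear sums over the primes minus a sieve model, with one variable in an interval of length
`x ^ θ`; mean squares of exponential sums over primes in intervals of length `x ^ θ`, uniformly in the frequency).
-/

set_option autoImplicit false

open Finset

namespace Pool.Agent.Results.MP_5d7b92_nt.SmallAndClusteredSummands

open Pool.Agent.H43.MA (V PP Rep Exc)

/-- the conditions on the windows `(g i, g i + G i]` of the multiples of `primorial y` -/
def Windows {k : ℕ} (C x y : ℕ) (g G : Fin k → ℕ) : Prop :=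
  ∀ i, x ≤ primorial y * g i ∧ primorial y * (g i + G i) ≤ 2 * x ∧
    (x : ℝ) ≤ primorial y * G i * Real.log x ^ C

/-- **Summands in short intervals.** For all `θ > 1/3`, `k`, `j`, `A`, `C` and `0 < ε ≤ 1` there is `K₀` such that for every
`K₁`, every large `x`, every `y` between `K₀ log log x` and `K₁ log log x`, with `M` the product of the primes `≤ y`, every
`Y` with `x ^ θ ≤ Y ≤ x` and all windows `(g i, g i + G i]` (`i < k`) with `x ≤ M g i`, `M (g i + G i) ≤ 2 x`,
`G i ≥ x / (M log ^ C x)`:

1. for every interval `(a, a + Y]` with `a + Y ≤ x` and every set `S` of at least `Y / log ^ A x` primes of this interval,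
   for all vectors `m` in the box `1 ≤ m i ≤ G i` with at most `ε ∏ G i` exceptions, there are at least
   `(1 - ε) #S / (V y log x) ^ k` elements `p` of `S` such that all the numbers `M (g i + m i) - p` are prime;
2. there are at least `Y / (2 log Y) ^ (j + 1)` primes `p ≤ Y` for which `p, π(p), ..., π^j(p)` are all prime, and the
   conclusion of 1 holds for the set of all of them. -/
theorem result (θ : ℝ) (hθ : 1 / 3 < θ) (k j A C : ℕ) (ε : ℝ) (hε : 0 < ε) (hε1 : ε ≤ 1) : ∃ K₀ : ℕ, ∀ K₁ : ℕ,
    ∃ x₀ : ℕ, ∀ x : ℕ, x₀ ≤ x →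
    ∀ y : ℕ, K₀ * Real.log (Real.log x) ≤ y → y ≤ K₁ * Real.log (Real.log x) →
    ∀ Y : ℕ, (x : ℝ) ^ θ ≤ Y → Y ≤ x → ∀ g G : Fin k → ℕ, Windows C x y g G →
    (∀ (a : ℕ) (S : Finset ℕ), a + Y ≤ x → S ⊆ Ioc a (a + Y) → (∀ p ∈ S, p.Prime) →
      (Y : ℝ) ≤ S.card * Real.log x ^ A → ((Exc ε S x y g G).card : ℝ) ≤ ε * ∏ i, (G i : ℝ)) ∧
    (Y : ℝ) / (2 * Real.log Y) ^ (j + 1) ≤ ((PP j Y).card : ℝ) ∧
    ((Exc ε (PP j Y) x y g G).card : ℝ) ≤ ε * ∏ i, (G i : ℝ) :=
  Pool.Agent.H43.MA.Fin.outA Pool.Agent.H43.MA.c_BILX θ hθ k j A C ε hε hε1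

end Pool.Agent.Results.MP_5d7b92_nt.SmallAndClusteredSummands
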